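import Mathlib
import Pool.Agent.H995R3.Main

set_option autoImplicit false

/-!
# The consistency of `ℵ₂ →_{hc,<3} (ℵ₂)²_ω`
-/

namespace Pool.Agent.Results.MP_54de64_lc.LevyCollapse

open Cardinal Pool.Agent.Helper669.Forcing Pool.Agent.Helper669.K Pool.Agent.H995R3

/-- Let `κ` be a measurable cardinal. There is a forcing notion `P` (the Levy collapse
`Col(ω₁, <κ)`), every condition of which forces that `ω₁` and `κ` are regular cardinals and every
cardinal below `κ` has cardinality at most `ℵ₁` (so `κ = ℵ₂`), that the continuum hypothesis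
holds, and that `κ →_{hc,<3} (κ)²_ω`, that is `ℵ₂ →_{hc,<3} (ℵ₂)²_ω`. -/
theorem result (κ : Cardinal.{0}) (h : IsMeasurable κ) :
    ∃ (P : Type) (_ : Preorder P), Nonempty P ∧ ∀ p : P,
      p ∈ StaysRegular P ℵ₁ ∧ p ∈ StaysRegular P κ ∧ p ∈ CollapsedBelow P κ ∧
      p ∈ ForcesCH P ∧ p ∈ HcBelow P κ.ord.ToType 3 := by
  refine ⟨LC (ℵ₁ : Cardinal.{0}).ord.ToType κ.ord.ToType, inferInstance,
    ⟨⟨∅, Set.countable_empty, fun _ _ _ _ h => absurd h (by simp),
      fun _ _ _ h => absurd h (by simp)⟩⟩, fun p => ?_⟩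
  obtain ⟨h1, h2, h3, h4⟩ := collapse_facts h p
  exact ⟨h1, h2, h3, h4, hc_below h p⟩

end Pool.Agent.Results.MP_54de64_lc.LevyCollapse
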